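import Mathlib
import Pool.Agent.Q183.GH.Triples

/-!
# Three four-point spaces without simultaneous optimal correspondences

The optimal correspondences between the three four-point spaces below are unique: they are the
graphs of the identity, the identity, and the permutation `(0 1)(2 3)`.  Hence no subset of the
triple product projects onto optimal correspondences for all three pairs.
-/

set_option autoImplicit false

namespace Pool.Agent.Results.MP_029391_gt.Holonomy

open Pool.Agent.Q183.GH

/-- The first metric. -/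
def M₁ : IntMetric 4 where
  D := ![![0, 100, 112, 120], ![100, 0, 120, 108], ![112, 120, 0, 130], ![120, 108, 130, 0]]
  self := by decide
  symm := by decide
  tri := by decide
  pos := by decide

/-- The second metric. -/
def M₂ : IntMetric 4 where
  D := ![![0, 100, 112, 122], ![100, 0, 118, 108], ![112, 118, 0, 130], ![122, 108, 130, 0]]
  self := by decide
  symm := by decide
  tri := by decide
  pos := by decide

/-- The third metric. -/
def M₃ : IntMetric 4 where
  D := ![![0, 100, 109, 122], ![100, 0, 118, 111], ![109, 118, 0, 130], ![122, 111, 130, 0]]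
  self := by decide
  symm := by decide
  tri := by decide
  pos := by decide

set_option maxRecDepth 100000 in
lemma le12 : ∀ f : Fin 4 → Fin 4, Le M₁ M₂ 2 f → f = id := by
  decide +kernel

set_option maxRecDepth 100000 in
lemma le23 : ∀ f : Fin 4 → Fin 4, Le M₂ M₃ 3 f → f = id := by
  decide +kernel

set_option maxRecDepth 100000 in
lemma le13 : ∀ f : Fin 4 → Fin 4, Le M₁ M₃ 2 f → f = ![1, 0, 3, 2] := by
  decide +kernel

theorem not_optimal (R : Set (Pt M₁ × Pt M₂ × Pt M₃)) :
    ¬ (IsOptimal (e12 R) ∧ IsOptimal (e13 R) ∧ IsOptimal (e23 R)) := by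
  rintro ⟨h12, h13, h23⟩
  have g12 := h12.subset_graph id 2 le12 (by decide) (by norm_num) (by decide)
  have g23 := h23.subset_graph id 3 le23 (by decide) (by norm_num) (by decide)
  have g13 := h13.subset_graph ![1, 0, 3, 2] 2 le13 (by decide) (by norm_num) (by decide)
  obtain ⟨y, ⟨x₁, x₂, x₃⟩, hR, hx⟩ := h12.1.left ⟨0⟩
  obtain ⟨h1, -⟩ := Prod.mk.inj hx
  have h1' : x₁.val = 0 := congrArg Pt.val h1
  have a12 : x₂.val = id x₁.val := g12 ⟨_, hR, rfl⟩
  have a23 : x₃.val = id x₂.val := g23 ⟨_, hR, rfl⟩
  have a13 : x₃.val = (![1, 0, 3, 2] : Fin 4 → Fin 4) x₁.val := g13 ⟨_, hR, rfl⟩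
  rw [a23, a12, h1'] at a13
  exact absurd a13 (by decide)

/-- There are three four-point metric spaces such that no subset of their product projects onto
optimal correspondences for all three pairs. -/
theorem result : ∃ (X₁ X₂ X₃ : Type) (_ : MetricSpace X₁) (_ : MetricSpace X₂)
    (_ : MetricSpace X₃), CompactSpace X₁ ∧ CompactSpace X₂ ∧ CompactSpace X₃ ∧
      Nat.card X₁ = 4 ∧ Nat.card X₂ = 4 ∧ Nat.card X₃ = 4 ∧
      ∀ R : Set (X₁ × X₂ × X₃),
        ¬ (IsOptimal (e12 R) ∧ IsOptimal (e13 R) ∧ IsOptimal (e23 R)) := by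
  have hc : ∀ M : IntMetric 4, Nat.card (Pt M) = 4 := fun M => by
    rw [Nat.card_congr (⟨Pt.val, Pt.mk, fun _ => rfl, fun _ => rfl⟩ : Pt M ≃ Fin 4)]
    simp
  exact ⟨Pt M₁, Pt M₂, Pt M₃, inferInstance, inferInstance, inferInstance, inferInstance,
    inferInstance, inferInstance, hc _, hc _, hc _, not_optimal⟩

end Pool.Agent.Results.MP_029391_gt.Holonomy
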